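import Pool.Agent.W2helper31.GP.Stm2

/-!
Project GP, round 2, piece GAM2: the bound for `log Gamma (1/2 + nu)`.
-/

set_option autoImplicit false

namespace Pool.Agent.W2helper97.GP

open Pool.Agent.W2helper31.GP

theorem gam2 : P_GAM2 := by
  intro hG hD hE
  have key : ∀ n : ℕ, ∀ nu : ℝ, (n : ℝ) ≤ nu → nu ≤ n + 1 →
      Real.log (Real.Gamma (1 / 2 + nu)) ≤ Real.log (Real.sqrt Real.pi)
        - (1 + Real.eulerMascheroniConstant + 2 * Real.log 2) * nu
        + (nu + 1 / 8) * Real.log (1 + 8 * nu) := by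
    intro n
    induction n with
    | zero =>
      intro nu h0 h1
      have h0' : 0 ≤ nu := by simpa using h0
      have h1' : nu ≤ 1 := by simpa using h1
      have h2 := hG nu h0'
      have h3 := hD nu h0' h1'
      linarith
    | succ n ih =>
      intro nu h0 h1
      push_cast at h0 h1
      have hn : (0 : ℝ) ≤ n := Nat.cast_nonneg n
      have h2 := ih (nu - 1) (by linarith) (by linarith)
      have h3 := hE (nu - 1) (by linarith)
      have h4 : Real.log (Real.Gamma (1 / 2 + nu)) =
          Real.log (nu - 1 + 1 / 2) + Real.log (Real.Gamma (1 / 2 + (nu - 1))) := by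
        have h5 : (1 / 2 + (nu - 1) : ℝ) ≠ 0 := by
          have : (0 : ℝ) < 1 / 2 + (nu - 1) := by linarith
          exact this.ne'
        have h6 : (0 : ℝ) < Real.Gamma (1 / 2 + (nu - 1)) := Real.Gamma_pos_of_pos (by linarith)
        have h7 := Real.Gamma_add_one h5
        have h8 : (1 / 2 + (nu - 1) + 1 : ℝ) = 1 / 2 + nu := by ring
        rw [h8] at h7
        rw [h7, Real.log_mul h5 h6.ne', add_comm (1 / 2) (nu - 1)]
      have h9 : (9 + 8 * (nu - 1) : ℝ) = 1 + 8 * nu := by ring
      have h10 : (nu - 1 + 9 / 8 : ℝ) = nu + 1 / 8 := by ring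
      rw [h9, h10] at h3
      rw [h4]
      linarith
  intro nu h0
  exact key ⌊nu⌋₊ nu (Nat.floor_le h0) (Nat.lt_floor_add_one nu).le

end Pool.Agent.W2helper97.GP
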